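import Mathlib

/-!
A quasiconformal map of the plane and an uncountable set `E` of reals such that the image of
`E × ℝ` contains no rectifiable curves (MP_410ea2_an): definitions and statements of the parts.
-/

set_option autoImplicit false

open Filter Topology Metric

namespace Pool.Agent.W485.QL

/-- the scales -/
noncomputable def ell (k : ℕ) : ℝ := (1 / 2) ^ (k ^ 2 + 20 * k)

/-- the size of the perturbation -/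
noncomputable def ep : ℝ := 1 / 120

noncomputable def U (y : ℝ) : ℂ :=
  ((ep * Real.sin y : ℝ) : ℂ) - Complex.I * ((ep ^ 2 / 8 * Real.sin (2 * y) : ℝ) : ℂ)

noncomputable def W (y : ℝ) : ℂ :=
  -Complex.I * ((ep * Real.cos y : ℝ) : ℂ) - ((ep ^ 2 / 4 * Real.cos (2 * y) : ℝ) : ℂ)

/-- the displacement of the model map: `P_x(0,y) = W y`, `P_y(0,y) = I * W y` -/
noncomputable def P (x y : ℝ) : ℂ := (Real.cos x : ℂ) * U y + (Real.sin x : ℂ) * W y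

/-- the Cantor set -/
def E : Set ℝ := {x | ∀ n : ℕ, ∃ j : ℤ, |x - 2 * Real.pi * ell n * j| ≤ 13 * ell (n + 1)}

/-- cut-off -/
noncomputable def eta (k : ℕ) (x : ℝ) : ℝ := max 0 (min 1 (2 - infDist x E / ell k))

/-- the maps -/
noncomputable def h (k : ℕ) (z : ℂ) : ℂ :=
  z + ((ell k * eta k z.re : ℝ) : ℂ) * P (z.re / ell k) (z.im / ell k)

/-- Properties of `P`. -/
structure PP : Prop where
  bdd : ∀ x y, ‖P x y‖ ≤ 1 / 30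
  lip : ∀ x y x' y', ‖P x y - P x' y'‖ ≤ 1 / 30 * (|x - x'| + |y - y'|)
  per : ∀ (x y : ℝ) (j : ℤ), P (x - 2 * Real.pi * j) y = P x y
  err : ∀ x y x' y', ‖P x y - P x' y' - W y' * (((x - x' : ℝ) : ℂ) + Complex.I * ((y - y' : ℝ) : ℂ))‖
    ≤ 1 / 15 * (|x| + |x'| + |y - y'|) * (|x - x'| + |y - y'|)
  big : ∀ y, 1 + 1 / 100000 ≤ ‖1 + W y‖

/-- The abstract properties of the maps `h k`. -/
structure Sys (E : Set ℝ) (l : ℕ → ℝ) (h : ℕ → ℂ → ℂ) : Prop where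
  ne : E.Nonempty
  l0 : l 0 = 1
  lpos : ∀ k, 0 < l k
  lsucc : ∀ k, l (k + 1) ≤ l k / 16
  disp : ∀ k z, ‖h k z - z‖ ≤ l k / 30
  lip : ∀ k z z', ‖(h k z - h k z') - (z - z')‖ ≤ 1 / 10 * ‖z - z'‖
  off : ∀ k (z : ℂ), 2 * l k ≤ infDist z.re E → h k z = z
  near : ∀ k (z : ℂ), infDist z.re E ≤ 3 * l (k + 1) → ∃ a : ℂ, 1 + 1 / 100000 ≤ ‖a‖ ∧
    ∀ z', ‖z' - z‖ ≤ 2 * l (k + 1) → ‖h k z' - h k z - a * (z' - z)‖ ≤ (1 / 2) ^ k / 10 * ‖z' - z‖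

/-- the compositions `h 0 ∘ ... ∘ h (n-1)` -/
def G (h : ℕ → ℂ → ℂ) : ℕ → ℂ → ℂ
  | 0 => id
  | n + 1 => G h n ∘ h n

/-- Near `E` the composition is nearly a similarity with a large factor. -/
def NS (E : Set ℝ) (l : ℕ → ℝ) (h : ℕ → ℂ → ℂ) : Prop :=
  ∀ n (z : ℂ), infDist z.re E ≤ 3 * l n → ∃ A : ℂ, (1 + 1 / 100000) ^ n ≤ ‖A‖ ∧
    ∀ z', ‖z' - z‖ ≤ 2 * l n → ‖G h n z' - G h n z - A * (z' - z)‖ ≤ 1 / 4 * ‖A‖ * ‖z' - z‖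

/-- Everywhere the composition is quasi-similar at scale `l n`. -/
def QS (l : ℕ → ℝ) (h : ℕ → ℂ → ℂ) : Prop :=
  ∀ n (z : ℂ), ∃ t : ℝ, 1 ≤ t ∧ ∀ z', ‖z' - z‖ ≤ 2 * l n →
    1 / 2 * t * ‖z' - z‖ ≤ ‖G h n z' - G h n z‖ ∧ ‖G h n z' - G h n z‖ ≤ 2 * t * ‖z' - z‖

/-- The consequences for the composition at scale `r` between `l (n+1)` and `l n`. -/
structure Fin (E : Set ℝ) (l : ℕ → ℝ) (h : ℕ → ℂ → ℂ) : Prop where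
  disp : ∀ N z, ‖G h N z - z‖ ≤ 1 / 10
  cau : ∀ n N z, n ≤ N → ‖G h N z - G h n z‖ ≤ (1 / 2) ^ n
  ratio : ∀ n N (p q q' : ℂ), n + 1 ≤ N → ‖q - p‖ = ‖q' - p‖ → l (n + 1) ≤ ‖q - p‖ → ‖q - p‖ < l n →
    ‖G h N q - G h N p‖ ≤ 16 * ‖G h N q' - G h N p‖
  low : ∀ n N (p q : ℂ), n + 1 ≤ N → l (n + 1) ≤ ‖q - p‖ → ‖q - p‖ < l n →
    1 / 4 * ‖q - p‖ ≤ ‖G h N q - G h N p‖
  big : ∀ n N (p q : ℂ), n + 1 ≤ N → p.re ∈ E → l (n + 1) ≤ ‖q - p‖ → ‖q - p‖ < l n →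
    1 / 4 * (1 + 1 / 100000) ^ n * ‖q - p‖ ≤ ‖G h N q - G h N p‖

/-- The limit map. -/
def SLimit (E : Set ℝ) : Prop :=
  ∃ f : ℂ ≃ₜ ℂ, (∀ x y z : ℂ, dist y x = dist z x → dist y x < 1 →
      dist (f y) (f x) ≤ 16 * dist (f z) (f x)) ∧
    ∀ K : ℝ, ∃ r : ℝ, 0 < r ∧ ∀ p q : ℂ, p.re ∈ E → dist q p < r → K * dist q p ≤ dist (f q) (f p)

/-- Rectifiable curves in the image of `E × ℝ` are constant. -/
def SRect : Prop :=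
  ∀ (f : ℂ ≃ₜ ℂ) (E : Set ℝ),
    (∀ K : ℝ, ∃ r : ℝ, 0 < r ∧ ∀ p q : ℂ, p.re ∈ E → dist q p < r → K * dist q p ≤ dist (f q) (f p)) →
    ∀ γ : ℝ → ℂ, ContinuousOn γ (Set.Icc 0 1) → BoundedVariationOn γ (Set.Icc 0 1) →
      (∀ t ∈ Set.Icc (0 : ℝ) 1, γ t ∈ f '' {z : ℂ | z.re ∈ E}) →
      ∀ s ∈ Set.Icc (0 : ℝ) 1, ∀ t ∈ Set.Icc (0 : ℝ) 1, γ s = γ t

end Pool.Agent.W485.QL
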